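import Pool.Agent.Lib.H69.Hopf.Alt
import Pool.Agent.Lib.H69.Gauss.Moments

/-!
# The Gaussian average of the Gauss–Bonnet integrands of random pull-backs
-/

open Equiv Finset MeasureTheory
open Pool.Agent.H69Gauss

namespace Pool.Agent.H69Hopf

/-- Sum of the Gauss–Bonnet integrands of all restrictions to `2 k` basis vectors. -/
noncomputable def DD {N : ℕ} (k : ℕ) (S : Arr N) : ℝ :=
  ∑ f : Fin (2 * k) → Fin N, gaussBonnet k (fun a b c d => S (f a) (f b) (f c) (f d))

section pairs

variable {m N : ℕ}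

/-- The exponent of the variable `p` in the monomial of the pair `u`, `v`. -/
def expo (u v : Fin m → Fin N) (p : Fin m × Fin N) : ℕ :=
  (if u p.1 = p.2 then 1 else 0) + (if v p.1 = p.2 then 1 else 0)

theorem prod_one (u : Fin m → Fin N) (g : Fin m × Fin N → ℝ) :
    ∏ b, g (b, u b) = ∏ p : Fin m × Fin N, g p ^ (if u p.1 = p.2 then 1 else 0) := by
  rw [Fintype.prod_prod_type]
  refine Finset.prod_congr rfl fun b _ => ?_
  rw [Finset.prod_eq_single (u b)]
  · simp
  · intro i _ hi
    simp [Ne.symm hi]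
  · simp

theorem prod_two (u v : Fin m → Fin N) (g : Fin m × Fin N → ℝ) :
    (∏ b, g (b, u b)) * (∏ b, g (b, v b)) = ∏ p : Fin m × Fin N, g p ^ expo u v p := by
  rw [prod_one, prod_one, ← Finset.prod_mul_distrib]
  refine Finset.prod_congr rfl fun p _ => ?_
  rw [← pow_add]
  rfl

theorem integrable_pairs (u v : Fin m → Fin N) :
    Integrable (fun g : Fin m × Fin N → ℝ => (∏ b, g (b, u b)) * (∏ b, g (b, v b)))
      (gam (Fin m × Fin N)) := by
  simp only [prod_two]
  exact Integrable.fintype_prod (f := fun p (t : ℝ) => t ^ expo u v p)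
    (fun p => integrable_pow_gauss _)

theorem gm_one : gm 1 = 0 := by
  have := gm_succ 0
  simpa using this

theorem gm_two : gm 2 = 1 := by
  have := gm_succ 1
  simpa [gm_zero] using this

theorem int_pairs (u v : Fin m → Fin N) :
    ∫ g : Fin m × Fin N → ℝ, (∏ b, g (b, u b)) * (∏ b, g (b, v b)) ∂(gam (Fin m × Fin N)) =
      if u = v then 1 else 0 := by
  simp only [prod_two]
  unfold gam
  rw [integral_fintype_prod_eq_prod (f := fun p (t : ℝ) => t ^ expo u v p)]
  by_cases h : u = v
  · rw [if_pos h]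
    subst h
    refine Finset.prod_eq_one fun p _ => ?_
    change gm (expo u u p) = 1
    unfold expo
    by_cases hp : u p.1 = p.2
    · simp [hp, gm_two]
    · simp [hp, gm_zero]
  · rw [if_neg h]
    obtain ⟨b, hb⟩ := Function.ne_iff.1 h
    refine Finset.prod_eq_zero (Finset.mem_univ (b, u b)) ?_
    change gm (expo u v (b, u b)) = 0
    unfold expo
    simp [Ne.symm hb, gm_one]

/-- Expansion of a multilinear map in the standard basis. -/
theorem multilinear_expand (M : MultilinearMap ℝ (fun _ : Fin m => (Fin N → ℝ)) ℝ)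
    (x : Fin m → (Fin N → ℝ)) :
    M x = ∑ u : Fin m → Fin N, (∏ r, x r (u r)) * M (fun r => Pi.single (u r) 1) := by
  classical
  have h1 : x = fun r => ∑ i, x r i • (Pi.single i 1 : Fin N → ℝ) := by
    funext r j
    rw [Finset.sum_apply, Finset.sum_eq_single j]
    · simp
    · intro i _ hi
      simp [Pi.single_apply, Ne.symm hi]
    · simp
  conv_lhs => rw [h1]
  rw [MultilinearMap.map_sum]
  refine Finset.sum_congr rfl fun u _ => ?_
  rw [MultilinearMap.map_smul_univ, smul_eq_mul]

end pairs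

theorem phi_expand {k N : ℕ} (S : Arr N) (σ τ : Perm (Fin (2 * k)))
    (g : Fin (2 * k) → (Fin N → ℝ)) :
    phi (fun _ : Fin k => S) (fun r => g (σ r)) (fun r => g (τ r)) =
      ∑ u : Fin (2 * k) → Fin N, ∑ v : Fin (2 * k) → Fin N,
        ((∏ b, g b (u b)) * (∏ b, g b (v b))) *
          phi (fun _ : Fin k => S) (fun r => Pi.single (u (σ r)) 1)
            (fun r => Pi.single (v (τ r)) 1) := by
  have h1 := multilinear_expand (phi1 (fun _ : Fin k => S) (fun r => g (τ r))) (fun r => g (σ r))
  have h1' : phi (fun _ : Fin k => S) (fun r => g (σ r)) (fun r => g (τ r)) =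
      ∑ u : Fin (2 * k) → Fin N, (∏ r, g (σ r) (u r)) *
        phi (fun _ : Fin k => S) (fun r => Pi.single (u r) 1) (fun r => g (τ r)) := h1
  have h2 : ∀ a : Fin (2 * k) → (Fin N → ℝ),
      phi (fun _ : Fin k => S) a (fun r => g (τ r)) =
      ∑ v : Fin (2 * k) → Fin N, (∏ r, g (τ r) (v r)) *
        phi (fun _ : Fin k => S) a (fun r => Pi.single (v r) 1) := fun a =>
    multilinear_expand (phi2 (fun _ : Fin k => S) a) (fun r => g (τ r))
  have h3 : ∀ (ρ : Perm (Fin (2 * k))) (F : (Fin (2 * k) → Fin N) → ℝ),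
      ∑ u : Fin (2 * k) → Fin N, F u = ∑ u : Fin (2 * k) → Fin N, F (fun r => u (ρ r)) := by
    intro ρ F
    exact (Equiv.sum_comp (Equiv.arrowCongr ρ.symm (Equiv.refl (Fin N))) F).symm
  rw [h1', h3 σ]
  refine Finset.sum_congr rfl fun u _ => ?_
  rw [h2, h3 τ, Finset.mul_sum]
  refine Finset.sum_congr rfl fun v _ => ?_
  rw [Equiv.prod_comp σ (fun b => g b (u b)), Equiv.prod_comp τ (fun b => g b (v b))]
  ring

theorem gb_pull_expand {k N : ℕ} (S : Arr N) (g : Fin (2 * k) → (Fin N → ℝ)) :
    gaussBonnet k (pull g S) =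
      ∑ σ : Perm (Fin (2 * k)), ∑ τ : Perm (Fin (2 * k)),
        ∑ u : Fin (2 * k) → Fin N, ∑ v : Fin (2 * k) → Fin N,
        (((Perm.sign σ : ℤ) : ℝ) * ((Perm.sign τ : ℤ) : ℝ) *
          phi (fun _ : Fin k => S) (fun r => Pi.single (u (σ r)) 1)
            (fun r => Pi.single (v (τ r)) 1)) * ((∏ b, g b (u b)) * (∏ b, g b (v b))) := by
  rw [gaussBonnet_eq_mgb, mgb_pull_eq (fun _ : Fin k => S)]
  refine Finset.sum_congr rfl fun σ _ => Finset.sum_congr rfl fun τ _ => ?_
  rw [phi_expand, Finset.mul_sum]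
  refine Finset.sum_congr rfl fun u _ => ?_
  rw [Finset.mul_sum]
  refine Finset.sum_congr rfl fun v _ => ?_
  ring

theorem integrable_gb_pull {k N : ℕ} (S : Arr N) :
    Integrable (fun g : Fin (2 * k) × Fin N → ℝ =>
      gaussBonnet k (pull (fun a i => g (a, i)) S)) (gam (Fin (2 * k) × Fin N)) := by
  simp only [gb_pull_expand]
  refine integrable_finset_sum _ fun σ _ => integrable_finset_sum _ fun τ _ =>
    integrable_finset_sum _ fun u _ => integrable_finset_sum _ fun v _ => ?_
  exact (integrable_pairs u v).const_mul _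

theorem gb_comp_eq {k N : ℕ} (S : Arr N) (f : Fin (2 * k) → Fin N) :
    gaussBonnet k (fun a b c d => S (f a) (f b) (f c) (f d)) =
      ∑ σ : Perm (Fin (2 * k)), ∑ τ : Perm (Fin (2 * k)),
        ((Perm.sign σ : ℤ) : ℝ) * ((Perm.sign τ : ℤ) : ℝ) *
          phi (fun _ : Fin k => S) (fun r => Pi.single (f (σ r)) 1)
            (fun r => Pi.single (f (τ r)) 1) := by
  unfold gaussBonnet phi
  simp only [ev_single]

/-- **The Gaussian average of the integrands of the random pull-backs.** -/
theorem DD_eq_int {N : ℕ} (k : ℕ) (S : Arr N) :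
    DD k S = ∫ g : Fin (2 * k) × Fin N → ℝ,
      gaussBonnet k (pull (fun a i => g (a, i)) S) ∂(gam (Fin (2 * k) × Fin N)) := by
  simp only [gb_pull_expand]
  rw [integral_finset_sum _ fun σ _ => integrable_finset_sum _ fun τ _ =>
    integrable_finset_sum _ fun u _ => integrable_finset_sum _ fun v _ =>
      (integrable_pairs u v).const_mul _]
  unfold DD
  simp only [gb_comp_eq]
  rw [Finset.sum_comm]
  refine Finset.sum_congr rfl fun σ _ => ?_
  rw [integral_finset_sum _ fun τ _ =>
    integrable_finset_sum _ fun u _ => integrable_finset_sum _ fun v _ =>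
      (integrable_pairs u v).const_mul _, Finset.sum_comm]
  refine Finset.sum_congr rfl fun τ _ => ?_
  rw [integral_finset_sum _ fun u _ => integrable_finset_sum _ fun v _ =>
      (integrable_pairs u v).const_mul _]
  refine Finset.sum_congr rfl fun u _ => ?_
  rw [integral_finset_sum _ fun v _ => (integrable_pairs u v).const_mul _]
  simp only [integral_const_mul, int_pairs]
  rw [Finset.sum_eq_single u]
  · simp
  · intro v _ hv
    rw [if_neg (Ne.symm hv), mul_zero]
  · simp

end Pool.Agent.H69Hopf
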