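import Pool.Agent.Lib.H69.Frob.Minors
import Pool.Agent.Lib.H69.Frob.GaussPull
import Pool.Agent.Lib.H69.Gauss.DetWick
import Pool.Agent.Lib.H69.Hopf.Sym

/-!
# Expansion of the Gauss–Bonnet integrand of `identity + S`
-/

open Equiv Finset MeasureTheory MvPolynomial
open scoped Matrix
open Pool.Agent.H69Gauss Pool.Agent.H69Frob

namespace Pool.Agent.H69Hopf

theorem exists_factor {P : Type*} [Fintype P] [DecidableEq P] (Q : Matrix P P ℝ)
    (hQ : Q.IsHermitian) :
    ∃ v : P → P → ℂ, ∀ p q, ((Q p q : ℝ) : ℂ) = ∑ a, v a p * v a q := by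
  set U : Matrix P P ℝ := (hQ.eigenvectorUnitary : Matrix P P ℝ) with hU
  have h1 : Q = U * Matrix.diagonal hQ.eigenvalues * Uᵀ := by
    have h := hQ.spectral_theorem
    rw [Unitary.conjStarAlgAut_apply] at h
    have h3 : (star (hQ.eigenvectorUnitary : Matrix P P ℝ)) = Uᵀ := by
      rw [hU, Matrix.star_eq_conjTranspose, Matrix.conjTranspose_eq_transpose_of_trivial]
    rw [← h3]
    simpa using h
  have h2 : ∀ p q, Q p q = ∑ a, hQ.eigenvalues a * (U p a * U q a) := by
    intro p q
    conv_lhs => rw [h1]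
    rw [Matrix.mul_apply]
    refine Finset.sum_congr rfl fun a _ => ?_
    rw [Matrix.mul_diagonal, Matrix.transpose_apply]
    ring
  choose c hc using fun x : ℝ => IsAlgClosed.exists_eq_mul_self (x : ℂ)
  refine ⟨fun a p => c (hQ.eigenvalues a) * (U p a : ℂ), fun p q => ?_⟩
  rw [h2]
  push_cast
  refine Finset.sum_congr rfl fun a _ => ?_
  rw [hc (hQ.eigenvalues a)]
  ring

theorem gm_odd (k : ℕ) : gm (2 * k + 1) = 0 := by
  induction k with
  | zero => exact gm_one
  | succ k ih =>
    rw [show 2 * (k + 1) + 1 = (2 * k + 2) + 1 by ring, gm_succ]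
    rw [show 2 * k + 2 - 1 = 2 * k + 1 by omega, ih, mul_zero]

theorem gm_even (k : ℕ) : gm (2 * k) = dff k := by
  induction k with
  | zero => simp [gm_zero, dff]
  | succ k ih =>
    rw [show 2 * (k + 1) = (2 * k + 1) + 1 by ring, gm_succ]
    rw [show 2 * k + 1 - 1 = 2 * k by omega, ih]
    simp [dff]

section none

variable {κ : Type*} [Fintype κ] {𝕜 : Type*} [RCLike 𝕜]

theorem LG_none (j : ℕ) (p : MvPolynomial κ 𝕜) :
    LG ((X none : MvPolynomial (Option κ) 𝕜) ^ j * rename some p) = (gm j : 𝕜) * LG p := by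
  classical
  induction p using MvPolynomial.induction_on' with
  | add p q hp hq => rw [map_add, mul_add, LG_add, hp, hq, LG_add, mul_add]
  | monomial s a =>
    rw [rename_monomial, X_pow_eq_monomial, monomial_mul, one_mul, LG_monomial, LG_monomial,
      Fintype.prod_option]
    have h1 : (Finsupp.single none j + Finsupp.mapDomain some s : Option κ →₀ ℕ) none = j := by
      rw [Finsupp.add_apply, Finsupp.mapDomain_of_notMem_range]
      · simp
      · simp
    have h2 : ∀ i : κ, (Finsupp.single none j + Finsupp.mapDomain some s : Option κ →₀ ℕ)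
        (some i) = s i := by
      intro i
      rw [Finsupp.add_apply, Finsupp.mapDomain_apply (Option.some_injective κ)]
      simp
    rw [h1]
    simp only [h2]
    ring

/-- The family with the identity matrix added. -/
def addOne {N : ℕ} (M : κ → Matrix (Fin N) (Fin N) 𝕜) : Option κ → Matrix (Fin N) (Fin N) 𝕜
  | none => 1
  | some a => M a

theorem ymat_addOne {N : ℕ} (M : κ → Matrix (Fin N) (Fin N) 𝕜) :
    ymat (addOne M) = (X none : MvPolynomial (Option κ) 𝕜) •
      (1 : Matrix (Fin N) (Fin N) (MvPolynomial (Option κ) 𝕜)) +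
      (rename (some : κ → Option κ) : MvPolynomial κ 𝕜 →ₐ[𝕜] MvPolynomial (Option κ) 𝕜).mapMatrix
        (ymat M) := by
  ext1 i j
  rw [Matrix.add_apply, Matrix.smul_apply, AlgHom.mapMatrix_apply, Matrix.map_apply]
  unfold ymat
  rw [Matrix.of_apply, Matrix.of_apply]
  unfold lin
  rw [Fintype.sum_option, map_sum]
  congr 1
  · change C ((1 : Matrix (Fin N) (Fin N) 𝕜) i j) * X none = _
    rw [Matrix.one_apply, Matrix.one_apply]
    split_ifs <;> simp
  · refine Finset.sum_congr rfl fun a _ => ?_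
    rw [map_mul, rename_C, rename_X]
    rfl

theorem pm_rename {N : ℕ} (Y : Matrix (Fin N) (Fin N) (MvPolynomial κ 𝕜)) (s : Finset (Fin N)) :
    pm ((rename (some : κ → Option κ) :
      MvPolynomial κ 𝕜 →ₐ[𝕜] MvPolynomial (Option κ) 𝕜).mapMatrix Y) s =
      rename some (pm Y s) := by
  unfold pm
  rw [AlgHom.map_det]
  rfl

theorem LG_det_addOne {N : ℕ} (M : κ → Matrix (Fin N) (Fin N) 𝕜) :
    LG (ymat (addOne M)).det =
      ∑ m ∈ Finset.range (N + 1), (gm (N - m) : 𝕜) *
        ∑ s ∈ Finset.powersetCard m Finset.univ, LG (pm (ymat M) s) := by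
  rw [ymat_addOne, det_add_smul_one, LG_sum]
  have h1 : ∀ s : Finset (Fin N), LG ((X none : MvPolynomial (Option κ) 𝕜) ^ (N - s.card) *
      pm ((rename (some : κ → Option κ) :
        MvPolynomial κ 𝕜 →ₐ[𝕜] MvPolynomial (Option κ) 𝕜).mapMatrix (ymat M)) s) =
      (gm (N - s.card) : 𝕜) * LG (pm (ymat M) s) := by
    intro s
    rw [pm_rename, LG_none]
  rw [Finset.sum_congr rfl (fun s _ => h1 s), ← Finset.powerset_univ, Finset.sum_powerset]
  have h2 : (Finset.univ : Finset (Fin N)).card = N := by simp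
  rw [h2]
  refine Finset.sum_congr rfl fun m _ => ?_
  rw [Finset.mul_sum]
  refine Finset.sum_congr rfl fun s hs => ?_
  rw [(Finset.mem_powersetCard.1 hs).2]

end none

theorem sum_even {n : ℕ} (a : ℕ → ℂ) (h : ∀ k, k < n → a (2 * k + 1) = 0) :
    ∑ m ∈ Finset.range (2 * n + 1), a m = ∑ k ∈ Finset.range (n + 1), a (2 * k) := by
  induction n with
  | zero => simp
  | succ n ih =>
    rw [show 2 * (n + 1) + 1 = (2 * n + 1) + 1 + 1 by ring, Finset.sum_range_succ,
      Finset.sum_range_succ, ih (fun k hk => h k (by omega)), h n (by omega), add_zero,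
      Finset.sum_range_succ _ (n + 1)]
    rfl

theorem ymat_submatrix {κ : Type*} [Fintype κ] {N m : ℕ} (M : κ → Matrix (Fin N) (Fin N) ℂ)
    (f : Fin m → Fin N) :
    (ymat M).submatrix f f = ymat (fun a => (M a).submatrix f f) := rfl

/-- **Expansion of the Gauss–Bonnet integrand of `identity + S`.** -/
theorem gb_idA_add_skew (n : ℕ) (S : Arr (2 * n)) (h1 : ∀ i j k l, S i j k l = - S j i k l)
    (h2 : ∀ i j k l, S i j k l = - S i j l k) :
    gaussBonnet n (fun i j k l => idA (2 * n) i j k l + S i j k l) =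
      ∑ k ∈ Finset.range (n + 1),
        (n.choose k : ℝ) * (2 ^ (n - k) * ((2 * n - 2 * k).factorial : ℝ) /
          ((2 * k).factorial : ℝ)) * DD k S := by
  classical
  set Q : Matrix (Fin (2 * n) × Fin (2 * n)) (Fin (2 * n) × Fin (2 * n)) ℝ :=
    fun p q => (1 / 2) * S p.1 q.1 p.2 q.2 with hQ
  have hQh : Q.IsHermitian := by
    ext p q
    simp only [hQ, Matrix.conjTranspose_apply, star_trivial]
    rw [h1 q.1 p.1 q.2 p.2, h2 p.1 q.1 q.2 p.2]
    ring
  obtain ⟨v, hv⟩ := exists_factor Q hQh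
  set M : Fin (2 * n) × Fin (2 * n) → Matrix (Fin (2 * n)) (Fin (2 * n)) ℂ :=
    fun a => Matrix.of fun i j => v a (i, j) with hM
  have hS : ∀ i j k l, ((S i j k l : ℝ) : ℂ) = ∑ a, (M a i k * M a j l - M a i l * M a j k) := by
    intro i j k l
    rw [Finset.sum_sub_distrib]
    have e1 := hv (i, k) (j, l)
    have e2 := hv (i, l) (j, k)
    simp only [hM, Matrix.of_apply]
    rw [← e1, ← e2]
    simp only [hQ]
    rw [h2 i j l k]
    push_cast
    ring
  have hI : ∀ i j k l, (((fun i j k l => idA (2 * n) i j k l + S i j k l) i j k l : ℝ) : ℂ) =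
      ∑ a : Option (Fin (2 * n) × Fin (2 * n)),
        (addOne M a i k * addOne M a j l - addOne M a i l * addOne M a j k) := by
    intro i j k l
    rw [Fintype.sum_option]
    simp only [addOne]
    rw [← hS]
    have e : ∀ (p : Prop) [Decidable p], (((if p then 1 else 0 : ℝ)) : ℂ) = if p then 1 else 0 := by
      intro p _
      split_ifs <;> simp
    unfold idA
    simp only [Matrix.one_apply, Complex.ofReal_add, Complex.ofReal_sub, Complex.ofReal_mul, e]
  have hgb : ((gaussBonnet n (fun i j k l => idA (2 * n) i j k l + S i j k l) : ℝ) : ℂ) =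
      4 ^ n * (n.factorial : ℂ) * LG (ymat (addOne M)).det :=
    gb_eq_LG n (addOne M) (fun i j k l => idA (2 * n) i j k l + S i j k l) hI
  have hL : LG (ymat (addOne M)).det = ∑ m ∈ Finset.range (2 * n + 1),
      ((gm (2 * n - m) : ℝ) : ℂ) * ∑ s ∈ Finset.powersetCard m Finset.univ, LG (pm (ymat M) s) :=
    LG_det_addOne M
  rw [hL] at hgb
  have hpm : ∀ m : ℕ, ∑ s ∈ Finset.powersetCard m Finset.univ, LG (pm (ymat M) s) =
      ((m.factorial : ℂ))⁻¹ * ∑ f : Fin m → Fin (2 * n), LG ((ymat M).submatrix f f).det := by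
    intro m
    have h3 := sum_det_submatrix m (ymat M)
    have h4 := congrArg LG h3
    rw [LG_sum] at h4
    have h5 : ((m.factorial : ℕ) : MvPolynomial (Fin (2 * n) × Fin (2 * n)) ℂ) =
        C ((m.factorial : ℕ) : ℂ) := by simp
    rw [h5, LG_C_mul, LG_sum] at h4
    rw [h4, ← mul_assoc, inv_mul_cancel₀ (by exact_mod_cast m.factorial_ne_zero), one_mul]
  simp only [hpm] at hgb
  rw [sum_even] at hgb
  · have hDD : ∀ k : ℕ, ∑ f : Fin (2 * k) → Fin (2 * n), LG ((ymat M).submatrix f f).det =
        ((DD k S : ℝ) : ℂ) / (4 ^ k * (k.factorial : ℂ)) := by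
      intro k
      unfold DD
      push_cast
      rw [Finset.sum_div]
      refine Finset.sum_congr rfl fun f _ => ?_
      rw [ymat_submatrix]
      have h6 : ((gaussBonnet k (fun a b c d => S (f a) (f b) (f c) (f d)) : ℝ) : ℂ) =
          4 ^ k * (k.factorial : ℂ) * LG (ymat (fun a => (M a).submatrix f f)).det :=
        gb_eq_LG k (fun a => (M a).submatrix f f)
        (fun a b c d => S (f a) (f b) (f c) (f d)) (by
          intro i j k' l
          exact hS (f i) (f j) (f k') (f l))
      rw [h6]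
      have h7 : (4 : ℂ) ^ k * (k.factorial : ℂ) ≠ 0 :=
        mul_ne_zero (pow_ne_zero _ (by norm_num)) (by exact_mod_cast k.factorial_ne_zero)
      exact (mul_div_cancel_left₀ _ h7).symm
    simp only [hDD] at hgb
    apply Complex.ofReal_injective
    rw [hgb]
    push_cast
    rw [Finset.mul_sum]
    refine Finset.sum_congr rfl fun k hk => ?_
    have hkn : k ≤ n := by
      have := Finset.mem_range.1 hk
      omega
    obtain ⟨j, rfl⟩ := Nat.exists_eq_add_of_le hkn
    have e1 : 2 * (k + j) - 2 * k = 2 * j := by omega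
    have e2 : k + j - k = j := by omega
    rw [e1, e2, gm_even]
    have h7 : ((2 * j).factorial : ℂ) = 2 ^ j * (j.factorial : ℂ) * (dff j : ℂ) := by
      have := congrArg (fun r : ℝ => (r : ℂ)) (factorial_dff j)
      push_cast at this
      exact this
    rw [h7]
    have h8 : ((k + j).choose k : ℂ) * (k.factorial : ℂ) * (j.factorial : ℂ) =
        ((k + j).factorial : ℂ) := by
      have h8' := Nat.add_choose_mul_factorial_mul_factorial k j
      rw [← Nat.choose_symm_add] at h8'
      exact_mod_cast h8'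
    have h9 : (k.factorial : ℂ) ≠ 0 := by exact_mod_cast k.factorial_ne_zero
    have h10 : ((2 * k).factorial : ℂ) ≠ 0 := by exact_mod_cast (2 * k).factorial_ne_zero
    rw [← h8, pow_add]
    have h11 : (4 : ℂ) ^ j = 2 ^ j * 2 ^ j := by
      rw [← mul_pow]
      norm_num
    rw [h11]
    have h12 : (4 : ℂ) ^ k ≠ 0 := pow_ne_zero _ (by norm_num)
    field_simp
  · intro k hk
    have e1 : 2 * n - (2 * k + 1) = 2 * (n - k - 1) + 1 := by omega
    rw [e1, gm_odd]
    simp

theorem gb_id_add (n : ℕ) (S : Arr (2 * n)) (hS : IsAlgCurv S) :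
    gaussBonnet n (fun i j k l => idA (2 * n) i j k l + S i j k l) =
      ∑ k ∈ Finset.range (n + 1),
        (n.choose k : ℝ) * (2 ^ (n - k) * ((2 * n - 2 * k).factorial : ℝ) /
          ((2 * k).factorial : ℝ)) * DD k S :=
  gb_idA_add_skew n S hS.skew fun i j k l => by
    rw [hS.pair i j k l, hS.skew k l i j, hS.pair l k i j]

end Pool.Agent.H69Hopf
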