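import Mathlib
set_option maxHeartbeats 400000

/-!
# Principal minors
-/

open Equiv Finset

namespace Pool.Agent.H69Frob

variable {A : Type*} [CommRing A] {N : ℕ}

/-- The principal minor of `Y` on the index set `s`. -/
noncomputable def pm (Y : Matrix (Fin N) (Fin N) A) (s : Finset (Fin N)) : A :=
  (Y.submatrix (Subtype.val : {i // i ∈ s} → Fin N) Subtype.val).det

theorem det_inst {n : Type*} (d1 d2 : DecidableEq n) (i1 i2 : Fintype n) (M : Matrix n n A) :
    @Matrix.det n d1 i1 A _ M = @Matrix.det n d2 i2 A _ M := by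
  cases Subsingleton.elim d1 d2
  cases Subsingleton.elim i1 i2
  rfl

theorem sq_det (Z Y : Matrix (Fin N) (Fin N) A) (s : Finset (Fin N))
    (h : ∀ i, i ∈ s → ∀ j, Z i j = Y i j) (d : DecidableEq {i // i ∈ s})
    (inst : Fintype {i // i ∈ s}) :
    @Matrix.det {i // i ∈ s} d inst A _ (Matrix.toSquareBlockProp Z fun i => i ∈ s) = pm Y s := by
  have h2 : (Matrix.toSquareBlockProp Z fun i => i ∈ s) =
      Y.submatrix (Subtype.val : {i // i ∈ s} → Fin N) Subtype.val := by
    ext i j
    exact h i.1 i.2 j.1
  rw [h2]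
  exact det_inst _ _ _ _ _

theorem det_piecewise (x : A) (Y : Matrix (Fin N) (Fin N) A) (s : Finset (Fin N)) :
    (Matrix.det (s.piecewise (fun i => Y i) (fun i => (x • (1 : Matrix (Fin N) (Fin N) A)) i)) : A) =
      x ^ (N - s.card) * pm Y s := by
  set Z : Matrix (Fin N) (Fin N) A :=
    s.piecewise (fun i => Y i) (fun i => (x • (1 : Matrix (Fin N) (Fin N) A)) i) with hZ
  have h1 : ∀ i, i ∈ s → ∀ j, Z i j = Y i j := by
    intro i hi j
    rw [hZ, Finset.piecewise_eq_of_mem _ _ _ hi]
  have h2 : ∀ i, i ∉ s → ∀ j, Z i j = (x • (1 : Matrix (Fin N) (Fin N) A)) i j := by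
    intro i hi j
    rw [hZ, Finset.piecewise_eq_of_notMem _ _ _ hi]
  have h0 : ∀ i, ¬ (i ∈ s) → ∀ j, j ∈ s → Z i j = 0 := by
    intro i hi j hj
    rw [h2 i hi j, Matrix.smul_apply, Matrix.one_apply_ne, smul_zero]
    rintro rfl
    exact hi hj
  have e2 : (Matrix.toSquareBlockProp Z fun i => ¬ (i ∈ s)) =
      x • (1 : Matrix {i // ¬ (i ∈ s)} {i // ¬ (i ∈ s)} A) := by
    ext i j
    have := h2 i.1 i.2 j.1
    change Z i.1 j.1 = _
    rw [this, Matrix.smul_apply, Matrix.smul_apply, Matrix.one_apply, Matrix.one_apply]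
    simp only [Subtype.ext_iff]
  have e3 : Fintype.card {i // ¬ (i ∈ s)} = N - s.card := by
    rw [Fintype.card_subtype_compl]
    simp
  have h3 := Matrix.twoBlockTriangular_det Z (fun i => i ∈ s) h0
  rw [sq_det Z Y s h1, e2, Matrix.det_smul, Matrix.det_one, mul_one, e3, mul_comm] at h3
  exact h3

theorem det_add_smul_one (x : A) (Y : Matrix (Fin N) (Fin N) A) :
    (x • (1 : Matrix (Fin N) (Fin N) A) + Y).det =
      ∑ s : Finset (Fin N), x ^ (N - s.card) * pm Y s := by
  have h := (Matrix.detRowAlternating (n := Fin N) (R := A)).toMultilinearMap.map_add_univ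
    (fun i => Y i) (fun i => (x • (1 : Matrix (Fin N) (Fin N) A)) i)
  rw [add_comm]
  refine h.trans (Finset.sum_congr rfl fun s _ => ?_)
  exact det_piecewise x Y s

theorem card_image_eq (m : ℕ) (s : Finset (Fin N)) (hs : s.card = m) :
    (Finset.univ.filter fun f : Fin m → Fin N => Finset.univ.image f = s).card = m.factorial := by
  classical
  have h1 : Fintype.card (Fin m ≃ {i // i ∈ s}) = m.factorial := by
    have e : Fin m ≃ {i // i ∈ s} := (Fintype.equivFinOfCardEq (by simp [hs])).symm
    rw [Fintype.card_equiv e, Fintype.card_fin]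
  rw [← h1, ← Finset.card_univ]
  symm
  refine Finset.card_bij (fun e _ => fun i => ((e i : {i // i ∈ s}) : Fin N)) ?_ ?_ ?_
  · intro e _
    rw [Finset.mem_filter]
    refine ⟨Finset.mem_univ _, ?_⟩
    ext j
    rw [Finset.mem_image]
    constructor
    · rintro ⟨i, _, rfl⟩
      exact (e i).2
    · intro hj
      exact ⟨e.symm ⟨j, hj⟩, Finset.mem_univ _, by simp⟩
  · intro e _ e' _ h
    ext i
    exact congrArg (fun t : Fin N => (t : ℕ)) (congrFun h i)
  · intro f hf
    rw [Finset.mem_filter] at hf
    have hinj : Function.Injective f := by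
      have h : Set.InjOn f (↑(Finset.univ : Finset (Fin m))) :=
        Finset.card_image_iff.1 (by rw [hf.2, hs]; simp)
      intro i j hij
      exact h (by simp) (by simp) hij
    have hmem : ∀ i, f i ∈ s := by
      intro i
      rw [← hf.2]
      exact Finset.mem_image_of_mem f (Finset.mem_univ i)
    refine ⟨Equiv.ofBijective (fun i => ⟨f i, hmem i⟩) ⟨?_, ?_⟩, Finset.mem_univ _, rfl⟩
    · intro i j h
      exact hinj (congrArg Subtype.val h)
    · rintro ⟨j, hj⟩
      rw [← hf.2, Finset.mem_image] at hj
      obtain ⟨i, _, rfl⟩ := hj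
      exact ⟨i, rfl⟩

theorem det_submatrix_of_image (m : ℕ) (Y : Matrix (Fin N) (Fin N) A) (s : Finset (Fin N))
    (f : Fin m → Fin N) (hf : Finset.univ.image f = s) :
    (Y.submatrix f f).det = if s.card = m then pm Y s else 0 := by
  classical
  by_cases hs : s.card = m
  · rw [if_pos hs]
    have hinj : Function.Injective f := by
      have h : Set.InjOn f (↑(Finset.univ : Finset (Fin m))) :=
        Finset.card_image_iff.1 (by rw [hf, hs]; simp)
      intro i j hij
      exact h (by simp) (by simp) hij
    have hmem : ∀ i, f i ∈ s := by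
      intro i
      rw [← hf]
      exact Finset.mem_image_of_mem f (Finset.mem_univ i)
    let e : Fin m ≃ {i // i ∈ s} := Equiv.ofBijective (fun i => ⟨f i, hmem i⟩) (by
      constructor
      · intro i j h
        exact hinj (congrArg Subtype.val h)
      · rintro ⟨j, hj⟩
        rw [← hf, Finset.mem_image] at hj
        obtain ⟨i, _, rfl⟩ := hj
        exact ⟨i, rfl⟩)
    unfold pm
    rw [← Matrix.det_submatrix_equiv_self e]
    rfl
  · rw [if_neg hs]
    have hni : ¬ Function.Injective f := by
      intro hinj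
      apply hs
      rw [← hf, Finset.card_image_of_injective _ hinj]
      simp
    rw [Function.Injective] at hni
    push Not at hni
    obtain ⟨i, j, hij, hne⟩ := hni
    refine Matrix.det_zero_of_row_eq hne ?_
    funext k
    simp [hij]

theorem sum_det_submatrix (m : ℕ) (Y : Matrix (Fin N) (Fin N) A) :
    ∑ f : Fin m → Fin N, (Y.submatrix f f).det =
      (m.factorial : A) * ∑ s ∈ Finset.powersetCard m Finset.univ, pm Y s := by
  classical
  rw [← Finset.sum_fiberwise Finset.univ (fun f : Fin m → Fin N => Finset.univ.image f)]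
  have h1 : ∀ s : Finset (Fin N),
      (∑ f ∈ Finset.univ.filter (fun f : Fin m → Fin N => Finset.univ.image f = s),
        (Y.submatrix f f).det) = if s.card = m then (m.factorial : A) * pm Y s else 0 := by
    intro s
    have h2 : ∀ f ∈ Finset.univ.filter (fun f : Fin m → Fin N => Finset.univ.image f = s),
        (Y.submatrix f f).det = if s.card = m then pm Y s else 0 := by
      intro f hf
      exact det_submatrix_of_image m Y s f (Finset.mem_filter.1 hf).2
    rw [Finset.sum_congr rfl h2, Finset.sum_const]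
    by_cases hs : s.card = m
    · rw [if_pos hs, if_pos hs, card_image_eq m s hs, nsmul_eq_mul]
    · rw [if_neg hs, if_neg hs, smul_zero]
  rw [Finset.sum_congr rfl (fun s _ => h1 s), ← Finset.sum_filter, Finset.mul_sum]
  refine Finset.sum_congr ?_ fun _ _ => rfl
  ext s
  simp [Finset.mem_powersetCard]

end Pool.Agent.H69Frob
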